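import Pool.Agent.BEB.Stmts

/-!
# Squad BEB, row HAO: harmonic odd polynomials of degree one.
-/

namespace Pool.Agent.BEB.H45

open Pool.Agent.BEB

theorem hao : HaoStmt := by
  intro H hH
  obtain ⟨h1, _, h3⟩ := hH
  refine ⟨MvPolynomial.coeff (Finsupp.single 2 1) H, ?_⟩
  apply MvPolynomial.ext
  intro m
  rw [MvPolynomial.coeff_C_mul, MvPolynomial.coeff_X]
  by_cases hm : Finsupp.single (2 : Fin 3) 1 = m
  · rw [if_pos hm, mul_one, hm]
  · rw [if_neg hm, mul_zero]
    by_contra hc
    have hdeg := h1 hc
    have hodd := h3 m (MvPolynomial.mem_support_iff.2 hc)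
    apply hm
    have hsum : m 0 + m 1 + m 2 = 1 := by
      have h2 : Finsupp.degree m = 1 := by
        rw [Finsupp.degree_eq_weight_one]
        exact hdeg
      rw [Finsupp.degree_eq_sum, Fin.sum_univ_three] at h2
      exact h2
    obtain ⟨k, hk⟩ := hodd
    ext i
    fin_cases i
    · simp
      omega
    · simp
      omega
    · simp
      omega

end Pool.Agent.BEB.H45
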